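import Mathlib
import Pool.Agent.H989R3.CMF.Depth
import Pool.Agent.H431R2.SCM.RL5

/-!
# Systems of parameters on a Cohen-Macaulay module are regular sequences
-/

set_option autoImplicit false

namespace Pool.Agent.Q171.KT

open IsLocalRing RingTheory.Sequence Pointwise

theorem coheight_le {A : Type} [CommRing A] [IsNoetherianRing A] [IsLocalRing A]
    (P : PrimeSpectrum A) (ys : List A)
    (hrad : maximalIdeal A ≤ (Ideal.ofList ys ⊔ P.asIdeal).radical)
    (hym : ∀ y ∈ ys, y ∈ maximalIdeal A) :
    Order.coheight P ≤ (ys.length : ℕ∞) := by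
  classical
  have h1 : ((Order.coheight P : ℕ∞) : WithBot ℕ∞) = ringKrullDim (A ⧸ P.asIdeal) := by
    rw [ringKrullDim_quotient, Order.coheight_eq_krullDim_Ici]
    have : (Set.Ici P : Set (PrimeSpectrum A)) = PrimeSpectrum.zeroLocus (P.asIdeal : Set A) := by
      ext Q
      rfl
    rw [this]
  have hP : P.asIdeal.IsPrime := P.2
  have hnt : Nontrivial (A ⧸ P.asIdeal) := Ideal.Quotient.nontrivial_iff.mpr hP.ne_top
  have hB : IsLocalRing (A ⧸ P.asIdeal) :=
    IsLocalRing.of_surjective' (Ideal.Quotient.mk P.asIdeal) Ideal.Quotient.mk_surjective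
  let f := Ideal.Quotient.mk P.asIdeal
  let s : Finset (A ⧸ P.asIdeal) := (ys.map f).toFinset
  have h2 : maximalIdeal (A ⧸ P.asIdeal) ∈ (Ideal.span (s : Set (A ⧸ P.asIdeal))).minimalPrimes := by
    have hloc : (maximalIdeal A).map f = maximalIdeal (A ⧸ P.asIdeal) :=
      IsLocalRing.map_maximalIdeal_of_surjective f Ideal.Quotient.mk_surjective
    refine ⟨⟨inferInstance, ?_⟩, ?_⟩
    · rw [Ideal.span_le]
      intro z hz
      simp only [s, List.coe_toFinset, List.mem_map, Set.mem_ofPred_eq] at hz
      obtain ⟨y, hy, rfl⟩ := hz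
      rw [SetLike.mem_coe, ← hloc]
      exact Ideal.mem_map_of_mem _ (hym y hy)
    · rintro Q ⟨hQ, hQs⟩ -
      rw [← hloc, Ideal.map_le_iff_le_comap]
      refine hrad.trans ?_
      have : (Q.comap f).IsPrime := inferInstance
      rw [this.radical_le_iff]
      refine sup_le ?_ ?_
      · rw [Ideal.ofList, Ideal.span_le]
        intro y hy
        rw [SetLike.mem_coe, Ideal.mem_comap]
        apply hQs
        apply Ideal.subset_span
        simp only [s, List.coe_toFinset, List.mem_map, Set.mem_ofPred_eq]
        exact ⟨y, hy, rfl⟩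
      · intro y hy
        rw [Ideal.mem_comap]
        have : f y = 0 := Ideal.Quotient.eq_zero_iff_mem.mpr hy
        rw [this]
        exact Q.zero_mem
  have h3 := Ideal.height_le_card_of_mem_minimalPrimes_span_finset h2
  have h4 : s.card ≤ ys.length := by
    have := List.toFinset_card_le (ys.map f)
    simpa [s] using this
  have h5 : ((Order.coheight P : ℕ∞) : WithBot ℕ∞) ≤ ((ys.length : ℕ∞) : WithBot ℕ∞) := by
    rw [h1, ← IsLocalRing.maximalIdeal_height_eq_ringKrullDim]
    have h6 : (maximalIdeal (A ⧸ P.asIdeal)).height ≤ (ys.length : ℕ∞) :=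
      h3.trans (by exact_mod_cast h4)
    exact_mod_cast h6
  exact_mod_cast h5

/-- a system of parameters on a Cohen-Macaulay module is a regular sequence -/
theorem cm_regular {A : Type} [CommRing A] [IsNoetherianRing A] [IsLocalRing A] :
    ∀ (n : ℕ) (M : Type) [AddCommGroup M] [Module A M] [Module.Finite A M] [Nontrivial M]
      (xs : List A) (_ : xs.length = n) (_ : ∀ x ∈ xs, x ∈ maximalIdeal A) (_ : IsRegular M xs)
      (ys : List A) (_ : ys.length = n) (_ : ∀ y ∈ ys, y ∈ maximalIdeal A)
      (_ : maximalIdeal A ≤ (Ideal.ofList ys ⊔ Module.annihilator A M).radical),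
      IsRegular M ys := by
  intro n
  induction n with
  | zero =>
    intro M _ _ _ _ xs hx hxm hreg ys hy hym hrad
    rw [List.length_eq_zero_iff] at hy
    subst hy
    simp [isRegular_iff]
  | succ n ih =>
    intro M _ _ _ _ xs hx hxm hreg ys hy hym hrad
    obtain ⟨y, ys', rfl⟩ := List.exists_cons_of_length_eq_add_one hy
    have hym0 : y ∈ maximalIdeal A := hym y (by simp)
    have hyreg : IsSMulRegular M y := by
      by_contra hcon
      have h1 : y ∈ ⋃ p ∈ associatedPrimes A M, (p : Set A) := by
        rw [biUnion_associatedPrimes_eq_compl_regular A M]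
        exact hcon
      simp only [Set.mem_iUnion, SetLike.mem_coe, exists_prop] at h1
      obtain ⟨P, hP, hyP⟩ := h1
      have h2 := Pool.Agent.H989R3.CMF.length_le_coheight xs hxm M hreg.toIsWeaklyRegular
        ⟨P, hP.1⟩ hP
      have h3 : Order.coheight (⟨P, hP.1⟩ : PrimeSpectrum A) ≤ (ys'.length : ℕ∞) := by
        apply coheight_le _ _ _ (fun z hz => hym z (by simp [hz]))
        refine hrad.trans (Ideal.radical_mono ?_)
        rw [Ideal.ofList_cons]
        refine sup_le (sup_le ?_ le_sup_left) ?_
        · rw [Ideal.span_singleton_le_iff_mem]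
          exact Ideal.mem_sup_right hyP
        · refine le_trans ?_ le_sup_right
          have := IsAssociatedPrime.annihilator_le hP
          rwa [Submodule.annihilator_top] at this
      have h4 : ((xs.length : ℕ) : ℕ∞) ≤ (ys'.length : ℕ∞) := h2.trans h3
      have h5 : xs.length ≤ ys'.length := by exact_mod_cast h4
      simp at hy
      omega
    have hnt : Nontrivial (QuotSMulTop y M) := H431RL.nontrivial_quot M y hym0
    obtain ⟨zs, hz, hzm, hzreg⟩ := H431RL.exchange M n xs hx hxm hreg y hym0 hyreg
    rw [isRegular_cons_iff]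
    refine ⟨hyreg, ?_⟩
    apply ih (QuotSMulTop y M) zs hz hzm hzreg ys' (by simpa using hy)
      (fun z hz => hym z (by simp [hz]))
    refine hrad.trans (Ideal.radical_mono ?_)
    rw [Ideal.ofList_cons]
    refine sup_le (sup_le ?_ le_sup_left) ?_
    · rw [Ideal.span_singleton_le_iff_mem]
      apply Ideal.mem_sup_right
      rw [Module.mem_annihilator]
      intro m
      obtain ⟨m, rfl⟩ := Submodule.mkQ_surjective _ m
      rw [← map_smul, Submodule.mkQ_apply, Submodule.Quotient.mk_eq_zero]
      exact Submodule.smul_mem_pointwise_smul m y ⊤ trivial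
    · refine le_trans ?_ le_sup_right
      intro a ha
      rw [Module.mem_annihilator] at ha ⊢
      intro m
      obtain ⟨m, rfl⟩ := Submodule.mkQ_surjective _ m
      rw [← map_smul, ha, map_zero]

end Pool.Agent.Q171.KT
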