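import Mathlib

/-!
# Traces along a linear map, and the homology of a mapping cone (differential vector spaces)
-/

set_option autoImplicit false

namespace Pool.Agent.Q171.KT

open LinearMap Module

section trace

variable {K V W : Type*} [Field K] [AddCommGroup V] [Module K V] [FiniteDimensional K V]
  [AddCommGroup W] [Module K W]

theorem trace_sub_quot (U : Submodule K V) (e : V →ₗ[K] V) (he : U ≤ U.comap e) :
    LinearMap.trace K V e = LinearMap.trace K U (e.restrict he)
      + LinearMap.trace K (V ⧸ U) (U.mapQ U e he) := by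
  classical
  let m := Module.Free.ChooseBasisIndex K U
  let bW : Basis m K U := Module.Free.chooseBasis K U
  let n := Module.Free.ChooseBasisIndex K (V ⧸ U)
  let bQ : Basis n K (V ⧸ U) := Module.Free.chooseBasis K (V ⧸ U)
  let b := Module.Basis.sumQuot bW bQ
  rw [LinearMap.trace_eq_matrix_trace K b, LinearMap.trace_eq_matrix_trace K bW,
    LinearMap.trace_eq_matrix_trace K bQ]
  rw [Matrix.trace, Fintype.sum_sum_type]
  congr 1
  · refine Finset.sum_congr rfl fun i _ => ?_
    simp only [Matrix.diag_apply, b, LinearMap.toMatrix_apply, Module.Basis.sumQuot_inl]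
    apply Module.Basis.sumQuot_repr_inl_of_mem
  · refine Finset.sum_congr rfl fun i _ => ?_
    simp only [Matrix.diag_apply, LinearMap.toMatrix_apply, Module.Basis.sumQuot_repr_inr, b]
    rw [← Module.Basis.sumQuot_inr bW bQ i, U.mapQ_apply]
    simp

/-- trace of an endomorphism transported by a linear equivalence -/
theorem trace_conj_of_comm {V W : Type*} [AddCommGroup V] [Module K V] [AddCommGroup W]
    [Module K W] (e : V ≃ₗ[K] W) (T : V →ₗ[K] V) (S : W →ₗ[K] W) (h : ∀ x, e (T x) = S (e x)) :
    LinearMap.trace K V T = LinearMap.trace K W S := by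
  have : S = e.conj T := by
    ext y
    rw [LinearEquiv.conj_apply_apply, h, LinearEquiv.apply_symm_apply]
  rw [this, LinearMap.trace_conj']

/-- trace is additive along a linear map -/
theorem trace_ker_range (f : V →ₗ[K] W) (T : V →ₗ[K] V) (S : W →ₗ[K] W)
    (h : ∀ x, f (T x) = S (f x)) (h1 : ∀ x ∈ ker f, T x ∈ ker f) (h2 : ∀ x ∈ range f, S x ∈ range f) :
    LinearMap.trace K V T = LinearMap.trace K (ker f) (T.restrict h1) +
      LinearMap.trace K (range f) (S.restrict h2) := by
  rw [trace_sub_quot (ker f) T h1]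
  congr 1
  refine trace_conj_of_comm f.quotKerEquivRange _ _ ?_
  intro x
  obtain ⟨x, rfl⟩ := (ker f).mkQ_surjective x
  apply Subtype.ext
  rw [Submodule.mkQ_apply, Submodule.mapQ_apply, coe_restrict_apply]
  rw [LinearMap.quotKerEquivRange_apply_mk, LinearMap.quotKerEquivRange_apply_mk]
  exact h x

end trace

section congr

variable {K V : Type*} [Field K] [AddCommGroup V] [Module K V]

theorem trace_restrict_congr {A B : Submodule K V} (h : A = B) {T S : V →ₗ[K] V} (hTS : T = S)
    (hA : ∀ x ∈ A, T x ∈ A) (hB : ∀ x ∈ B, S x ∈ B) :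
    LinearMap.trace K A (T.restrict hA) = LinearMap.trace K B (S.restrict hB) := by
  subst h
  subst hTS
  rfl

end congr

section exact5

variable {K H H' : Type*} [Field K] [AddCommGroup H] [Module K H] [FiniteDimensional K H]
  [AddCommGroup H'] [Module K H']

/-- The Lefschetz-type formula for an exact sequence `H → H → H' → H → H`. -/
theorem exact5 (u : H →ₗ[K] H) (i : H →ₗ[K] H') (p : H' →ₗ[K] H) (T : H →ₗ[K] H)
    (T' : H' →ₗ[K] H') (l : K)
    (e1 : ker i = range u) (e2 : ker p = range i) (e3 : ker u = range p)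
    (hu : ∀ x, T (u x) = l • u (T x)) (hi : ∀ x, T' (i x) = i (T x))
    (hp : ∀ x, p (T' x) = - (l • T (p x))) :
    FiniteDimensional K H' ∧ LinearMap.trace K H' T' = (1 - l) * LinearMap.trace K H T := by
  have hfd : FiniteDimensional K H' := by
    have a1 : FiniteDimensional K (range i) := inferInstance
    have a2 : FiniteDimensional K (range p) := inferInstance
    have a3 : FiniteDimensional K (ker p) := by rw [e2]; exact a1
    have a4 : FiniteDimensional K (H' ⧸ ker p) := Module.Finite.equiv p.quotKerEquivRange.symm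
    exact Module.Finite.of_submodule_quotient (ker p)
  refine ⟨hfd, ?_⟩
  have k1 := trace_ker_range p T' (-(l • T)) (fun x => by rw [hp]; rfl)
    (fun x hx => by
      rw [LinearMap.mem_ker] at hx ⊢
      rw [hp, hx]; simp)
    (fun x hx => by
      obtain ⟨y, rfl⟩ := hx
      exact ⟨T' y, by rw [hp]; rfl⟩)
  have k2 := trace_ker_range i T T' (fun x => (hi x).symm)
    (fun x hx => by
      rw [LinearMap.mem_ker] at hx ⊢
      rw [← hi, hx]; simp)
    (fun x hx => by
      obtain ⟨y, rfl⟩ := hx
      exact ⟨T y, (hi y).symm⟩)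
  have k3 := trace_ker_range u (l • T) T (fun x => by
      rw [hu, LinearMap.smul_apply, map_smul])
    (fun x hx => by
      rw [LinearMap.mem_ker] at hx ⊢
      rw [LinearMap.smul_apply, map_smul, ← hu, hx, map_zero])
    (fun x hx => by
      obtain ⟨y, rfl⟩ := hx
      exact ⟨l • T y, by rw [hu, map_smul]⟩)
  have hS : ∀ x ∈ range p, (l • T) x ∈ range p := by
    intro x hx
    rw [← e3, LinearMap.mem_ker] at hx ⊢
    rw [LinearMap.smul_apply, map_smul, ← hu, hx, map_zero]
  have k4 : LinearMap.trace K (range p) ((-(l • T)).restrict (fun x hx => by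
      obtain ⟨y, rfl⟩ := hx
      exact ⟨T' y, by rw [hp]; rfl⟩)) = - LinearMap.trace K (range p) ((l • T).restrict hS) := by
    rw [← map_neg]
    rfl
  rw [k1, k4]
  rw [trace_restrict_congr e2 rfl _ (fun x hx => by
      obtain ⟨y, rfl⟩ := hx
      exact ⟨T y, (hi y).symm⟩)]
  rw [trace_restrict_congr e1 rfl _ (fun x hx => by
      obtain ⟨y, rfl⟩ := hx
      exact ⟨l • T y, by rw [hu, map_smul]⟩)] at k2
  rw [trace_restrict_congr e3 rfl _ hS] at k3
  rw [map_smul, smul_eq_mul] at k3
  linear_combination k3 - k2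

end exact5

end Pool.Agent.Q171.KT
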