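import Mathlib
import Pool.Agent.Q171.KT.Trace

/-!
# Homology of differential vector spaces and of mapping cones
-/

set_option autoImplicit false

namespace Pool.Agent.Q171.KT

open LinearMap Module

variable {k C C' C'' : Type} [Field k] [AddCommGroup C] [Module k C] [AddCommGroup C'] [Module k C']
  [AddCommGroup C''] [Module k C'']

/-- homology of a differential -/
abbrev Hm (d : C →ₗ[k] C) : Type := ↥(ker d) ⧸ (Submodule.comap (ker d).subtype (range d))

/-- the class of a cycle -/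
def hmk (d : C →ₗ[k] C) (x : C) (hx : d x = 0) : Hm d := Submodule.Quotient.mk ⟨x, hx⟩

theorem hmk_eq_zero (d : C →ₗ[k] C) (x : C) (hx : d x = 0) :
    hmk d x hx = 0 ↔ ∃ y, d y = x := by
  rw [hmk, Submodule.Quotient.mk_eq_zero]
  simp [LinearMap.mem_range]

theorem hmk_surj (d : C →ₗ[k] C) (z : Hm d) : ∃ x hx, hmk d x hx = z := by
  obtain ⟨⟨x, hx⟩, rfl⟩ := Submodule.mkQ_surjective _ z
  exact ⟨x, hx, rfl⟩

theorem hmk_add (d : C →ₗ[k] C) (x y : C) (hx : d x = 0) (hy : d y = 0) (hxy : d (x + y) = 0) :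
    hmk d (x + y) hxy = hmk d x hx + hmk d y hy := rfl

theorem hmk_sub (d : C →ₗ[k] C) (x y : C) (hx : d x = 0) (hy : d y = 0) (hxy : d (x - y) = 0) :
    hmk d (x - y) hxy = hmk d x hx - hmk d y hy := rfl

theorem hmk_smul (d : C →ₗ[k] C) (c : k) (x : C) (hx : d x = 0) (hxy : d (c • x) = 0) :
    hmk d (c • x) hxy = c • hmk d x hx := rfl

theorem hmk_neg (d : C →ₗ[k] C) (x : C) (hx : d x = 0) (hxy : d (-x) = 0) :
    hmk d (-x) hxy = - hmk d x hx := rfl

theorem hmk_eq (d : C →ₗ[k] C) (x y : C) (hx : d x = 0) (hy : d y = 0) :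
    hmk d x hx = hmk d y hy ↔ ∃ z, d z = x - y := by
  have h : d (x - y) = 0 := by rw [map_sub, hx, hy, sub_zero]
  rw [← sub_eq_zero, ← hmk_sub d x y hx hy h, hmk_eq_zero]

/-- a linear map respecting cycles and boundaries induces a map on homology -/
def hmap (d : C →ₗ[k] C) (d' : C' →ₗ[k] C') (f : C →ₗ[k] C') (h1 : ∀ x, d x = 0 → d' (f x) = 0)
    (h2 : ∀ x, ∃ y, d' y = f (d x)) : Hm d →ₗ[k] Hm d' :=
  Submodule.mapQ _ _ (f.restrict (p := ker d) (q := ker d') (fun x hx => h1 x hx)) (by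
    rintro ⟨x, hx⟩ ⟨y, hy⟩
    obtain ⟨z, hz⟩ := h2 y
    refine ⟨z, ?_⟩
    rw [hz, hy]
    rfl)

theorem hmap_hmk (d : C →ₗ[k] C) (d' : C' →ₗ[k] C') (f : C →ₗ[k] C')
    (h1 : ∀ x, d x = 0 → d' (f x) = 0) (h2 : ∀ x, ∃ y, d' y = f (d x)) (x : C) (hx : d x = 0) :
    hmap d d' f h1 h2 (hmk d x hx) = hmk d' (f x) (h1 x hx) := rfl

/-- The homology of the mapping cone of `u`, where `T u = l u T`, `T d = -d T`. -/
theorem cone_trace (d u T : C →ₗ[k] C) (d' T' : C × C →ₗ[k] C × C) (l : k)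
    (hdu : ∀ x, d (u x) = u (d x))
    (hTu : ∀ x, T (u x) = l • u (T x))
    (hd' : ∀ a b, d' (a, b) = (d a + u b, - d b)) (hT' : ∀ a b, T' (a, b) = (T a, -(l • T b)))
    (hfin : FiniteDimensional k (Hm d))
    (h1 : ∀ x, d x = 0 → d (T x) = 0) (h2 : ∀ x, ∃ y, d y = T (d x))
    (h1' : ∀ x, d' x = 0 → d' (T' x) = 0) (h2' : ∀ x, ∃ y, d' y = T' (d' x)) :
    FiniteDimensional k (Hm d') ∧
      LinearMap.trace k (Hm d') (hmap d' d' T' h1' h2') =
        (1 - l) * LinearMap.trace k (Hm d) (hmap d d T h1 h2) := by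
  let uH : Hm d →ₗ[k] Hm d := hmap d d u (fun x hx => by rw [hdu, hx, map_zero])
    (fun x => ⟨u x, by rw [hdu]⟩)
  let i : Hm d →ₗ[k] Hm d' := hmap d d' (LinearMap.inl k C C)
    (fun x hx => by rw [LinearMap.inl_apply, hd', hx]; simp)
    (fun x => ⟨(x, 0), by rw [hd', LinearMap.inl_apply]; simp⟩)
  let p : Hm d' →ₗ[k] Hm d := hmap d' d (LinearMap.snd k C C)
    (fun x hx => by
      obtain ⟨a, b⟩ := x
      rw [hd'] at hx
      have := congrArg Prod.snd hx
      simpa using this)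
    (fun x => by
      obtain ⟨a, b⟩ := x
      exact ⟨-b, by rw [hd', map_neg]; rfl⟩)
  have uE : ∀ x hx (hx' : d (u x) = 0), uH (hmk d x hx) = hmk d (u x) hx' := fun _ _ _ => rfl
  have iE : ∀ x hx (hx' : d' (x, 0) = 0), i (hmk d x hx) = hmk d' (x, 0) hx' := fun _ _ _ => rfl
  have pE : ∀ a b hx (hx' : d b = 0), p (hmk d' (a, b) hx) = hmk d b hx' := fun _ _ _ _ => rfl
  have TE : ∀ x hx (hx' : d (T x) = 0), hmap d d T h1 h2 (hmk d x hx) = hmk d (T x) hx' :=
    fun _ _ _ => rfl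
  have TE' : ∀ a b hx (hx' : d' (T a, -(l • T b)) = 0),
      hmap d' d' T' h1' h2' (hmk d' (a, b) hx) = hmk d' (T a, -(l • T b)) hx' := by
    intro a b hx hx'
    rw [hmap_hmk]
    congr 1
    exact hT' a b
  have cu : ∀ x, d x = 0 → d (u x) = 0 := fun x hx => by rw [hdu, hx, map_zero]
  have ci : ∀ x, d x = 0 → d' (x, 0) = 0 := fun x hx => by rw [hd', hx]; simp
  have cp : ∀ a b, d' (a, b) = 0 → d a + u b = 0 ∧ d b = 0 := fun a b h => by
    rw [hd', Prod.mk_eq_zero] at h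
    exact ⟨h.1, by simpa using h.2⟩
  have cp' : ∀ a b, d a + u b = 0 → d b = 0 → d' (a, b) = 0 := fun a b h h' => by
    rw [hd', h, h', neg_zero]; rfl
  refine exact5 uH i p (hmap d d T h1 h2) (hmap d' d' T' h1' h2') l ?_ ?_ ?_ ?_ ?_ ?_
  · apply Submodule.ext
    intro z
    obtain ⟨x, hx, rfl⟩ := hmk_surj d z
    rw [LinearMap.mem_ker, LinearMap.mem_range, iE x hx (ci x hx), hmk_eq_zero]
    constructor
    · rintro ⟨⟨a, b⟩, hab⟩
      rw [hd', Prod.mk.injEq] at hab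
      have hb : d b = 0 := by
        have := hab.2
        simpa using this
      refine ⟨hmk d b hb, ?_⟩
      rw [uE b hb (cu b hb), hmk_eq]
      exact ⟨-a, by rw [map_neg, ← hab.1]; abel⟩
    · rintro ⟨y, hy⟩
      obtain ⟨b, hb, rfl⟩ := hmk_surj d y
      rw [uE b hb (cu b hb), hmk_eq] at hy
      obtain ⟨z, hz⟩ := hy
      refine ⟨(-z, b), ?_⟩
      rw [hd', map_neg, hz, hb]
      simp
  · apply Submodule.ext
    intro z
    obtain ⟨⟨a, b⟩, hab, rfl⟩ := hmk_surj d' z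
    have hab' := cp a b hab
    rw [LinearMap.mem_ker, LinearMap.mem_range, pE a b hab hab'.2, hmk_eq_zero]
    constructor
    · rintro ⟨y, hy⟩
      have hc : d (a + u y) = 0 := by
        rw [map_add, hdu, hy]
        exact hab'.1
      refine ⟨hmk d (a + u y) hc, ?_⟩
      rw [iE _ hc (ci _ hc), hmk_eq]
      refine ⟨(0, y), ?_⟩
      rw [hd', hy]
      simp
    · rintro ⟨y, hy⟩
      obtain ⟨c, hc, rfl⟩ := hmk_surj d y
      rw [iE _ hc (ci _ hc), hmk_eq] at hy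
      obtain ⟨⟨e, f⟩, hef⟩ := hy
      rw [hd'] at hef
      have := congrArg Prod.snd hef
      refine ⟨f, ?_⟩
      simpa using this
  · apply Submodule.ext
    intro z
    obtain ⟨b, hb, rfl⟩ := hmk_surj d z
    rw [LinearMap.mem_ker, LinearMap.mem_range, uE b hb (cu b hb), hmk_eq_zero]
    constructor
    · rintro ⟨y, hy⟩
      have hc : d' (-y, b) = 0 := by
        rw [hd', map_neg, hy, hb]
        simp
      exact ⟨hmk d' (-y, b) hc, pE _ _ hc hb⟩
    · rintro ⟨y, hy⟩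
      obtain ⟨⟨a, c⟩, hac, rfl⟩ := hmk_surj d' y
      have hac' := cp a c hac
      rw [pE a c hac hac'.2, hmk_eq] at hy
      obtain ⟨w, hw⟩ := hy
      refine ⟨-a - u w, ?_⟩
      rw [map_sub, map_neg, hdu, hw, map_sub]
      have := hac'.1
      have h3 : d a = - u c := by rw [eq_neg_iff_add_eq_zero]; exact this
      rw [h3]
      abel
  · intro z
    obtain ⟨x, hx, rfl⟩ := hmk_surj d z
    rw [uE x hx (cu x hx), TE _ (cu x hx) (h1 _ (cu x hx)), TE x hx (h1 x hx),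
      uE _ (h1 x hx) (cu _ (h1 x hx)), ← hmk_smul d l _ _ (by
        rw [map_smul, cu _ (h1 x hx), smul_zero])]
    congr 1
    exact hTu x
  · intro z
    obtain ⟨x, hx, rfl⟩ := hmk_surj d z
    rw [iE x hx (ci x hx), TE x hx (h1 x hx), iE _ (h1 x hx) (ci _ (h1 x hx)),
      TE' _ _ _ (by
        rw [map_zero, smul_zero, neg_zero]
        exact ci _ (h1 x hx))]
    congr 1
    rw [map_zero, smul_zero, neg_zero]
  · intro z
    obtain ⟨⟨a, b⟩, hab, rfl⟩ := hmk_surj d' z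
    have hb := (cp a b hab).2
    have hlT : d (l • T b) = 0 := by rw [map_smul, h1 b hb, smul_zero]
    have hlT' : d (-(l • T b)) = 0 := by rw [map_neg, hlT, neg_zero]
    have hT'c : d' (T a, -(l • T b)) = 0 := by
      rw [← hT']
      exact h1' _ hab
    rw [TE' a b hab hT'c, pE _ _ hT'c hlT', pE a b hab hb, TE b hb (h1 b hb),
      ← hmk_smul d l _ (h1 b hb) hlT, ← hmk_neg d _ hlT hlT']

/-- an isomorphism of differential spaces commuting with `T` preserves the trace on homology -/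
theorem iso_trace (d T : C →ₗ[k] C) (d' T' : C' →ₗ[k] C') (e : C ≃ₗ[k] C')
    (hd : ∀ x, e (d x) = d' (e x)) (hT : ∀ x, e (T x) = T' (e x))
    (h1 : ∀ x, d x = 0 → d (T x) = 0) (h2 : ∀ x, ∃ y, d y = T (d x))
    (h1' : ∀ x, d' x = 0 → d' (T' x) = 0) (h2' : ∀ x, ∃ y, d' y = T' (d' x)) :
    LinearMap.trace k (Hm d') (hmap d' d' T' h1' h2') =
        LinearMap.trace k (Hm d) (hmap d d T h1 h2) := by
  have hd2 : ∀ y, e.symm (d' y) = d (e.symm y) := by
    intro y
    apply e.injective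
    rw [LinearEquiv.apply_symm_apply, hd, LinearEquiv.apply_symm_apply]
  let f : Hm d →ₗ[k] Hm d' := hmap d d' e.toLinearMap (fun x hx => by
    rw [LinearEquiv.coe_coe, ← hd, hx, map_zero]) (fun x => ⟨e x, (hd x).symm⟩)
  let g : Hm d' →ₗ[k] Hm d := hmap d' d e.symm.toLinearMap (fun x hx => by
    rw [LinearEquiv.coe_coe, ← hd2, hx, map_zero]) (fun x => ⟨e.symm x, (hd2 x).symm⟩)
  let E : Hm d ≃ₗ[k] Hm d' := LinearEquiv.ofLinearMap f g (by
    apply LinearMap.ext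
    intro z
    obtain ⟨x, hx, rfl⟩ := hmk_surj d' z
    change hmk d' (e (e.symm x)) _ = hmk d' x hx
    congr 1
    exact e.apply_symm_apply x) (by
    apply LinearMap.ext
    intro z
    obtain ⟨x, hx, rfl⟩ := hmk_surj d z
    change hmk d (e.symm (e x)) _ = hmk d x hx
    congr 1
    exact e.symm_apply_apply x)
  symm
  refine trace_conj_of_comm E _ _ ?_
  intro z
  obtain ⟨x, hx, rfl⟩ := hmk_surj d z
  change hmk d' (e (T x)) _ = hmk d' (T' (e x)) _
  congr 1
  exact hT x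

end Pool.Agent.Q171.KT
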