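import Mathlib
import Pool.Agent.Q171.KT.CM

/-!
# Regular sequences in rings of formal power series over a field
-/

set_option autoImplicit false

namespace Pool.Agent.Q171.KT

open IsLocalRing RingTheory.Sequence Pointwise

/-- `us`, read from right to left, is a weakly regular sequence -/
def RegRev {R : Type} [CommRing R] : List R → Prop
  | [] => True
  | u :: us => RegRev us ∧ ∀ r, u * r ∈ Ideal.ofList us → r ∈ Ideal.ofList us

theorem ofList_reverse {R : Type} [CommRing R] (us : List R) :
    Ideal.ofList us.reverse = Ideal.ofList us := by
  simp only [Ideal.ofList, List.mem_reverse]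

theorem regRev_iff {R : Type} [CommRing R] (us : List R) :
    RegRev us ↔ IsWeaklyRegular R us.reverse := by
  induction us with
  | nil => simp [RegRev]
  | cons u us ih =>
    rw [RegRev, List.reverse_cons, isWeaklyRegular_append_iff, ← ih, isWeaklyRegular_singleton_iff,
      isSMulRegular_quotient_iff_mem_of_smul_mem, ofList_reverse]
    simp only [smul_eq_mul, Ideal.mul_top]

section PS

variable {k : Type} [Field k] {n : ℕ}

open MvPowerSeries in
theorem mem_span_X (S : Finset (Fin n)) (r : MvPowerSeries (Fin n) k) :
    r ∈ Ideal.span ((fun i => (X i : MvPowerSeries (Fin n) k)) '' (S : Set (Fin n))) ↔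
      ∀ m : Fin n →₀ ℕ, (∀ i ∈ S, m i = 0) → coeff m r = 0 := by
  classical
  constructor
  · intro h
    induction h using Submodule.span_induction with
    | mem x hx =>
      obtain ⟨i, hi, rfl⟩ := hx
      intro m hm
      exact (X_dvd_iff.mp (dvd_refl (X i : MvPowerSeries (Fin n) k))) m (hm i hi)
    | zero => intro m _; simp
    | add x y _ _ hx hy =>
      intro m hm
      rw [map_add, hx m hm, hy m hm, add_zero]
    | smul a x _ hx =>
      intro m hm
      rw [smul_eq_mul, coeff_mul]
      apply Finset.sum_eq_zero
      intro p hp
      rw [hx p.2, mul_zero]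
      intro i hi
      have h1 := Finset.HasAntidiagonal.mem_antidiagonal.mp hp
      have h2 : (p.1 + p.2) i = 0 := by rw [h1]; exact hm i hi
      rw [Finsupp.add_apply] at h2
      omega
  · induction S using Finset.induction_on generalizing r with
    | empty =>
      intro h
      have : r = 0 := by
        ext m
        rw [h m (by simp)]
        simp
      rw [this]
      exact Ideal.zero_mem _
    | insert i S hiS ih =>
      intro h
      let r0 : MvPowerSeries (Fin n) k := fun m => if m i = 0 then coeff m r else 0
      have hr0 : ∀ m, coeff m r0 = if m i = 0 then coeff m r else 0 := fun m => rfl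
      have h1 : r0 ∈ Ideal.span ((fun i => (X i : MvPowerSeries (Fin n) k)) '' (S : Set (Fin n))) := by
        apply ih
        intro m hm
        rw [hr0]
        split_ifs with h2
        · apply h
          intro j hj
          rcases Finset.mem_insert.mp hj with rfl | hj
          · exact h2
          · exact hm j hj
        · rfl
      have h2 : (X i : MvPowerSeries (Fin n) k) ∣ r - r0 := by
        rw [X_dvd_iff]
        intro m hm
        rw [map_sub, hr0, if_pos hm, sub_self]
      obtain ⟨c, hc⟩ := h2
      have h3 : r = r0 + X i * c := by rw [← hc]; ring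
      rw [h3]
      refine Ideal.add_mem _ (Ideal.span_mono (Set.image_mono (by simp)) h1) ?_
      exact Ideal.mul_mem_right _ _ (Ideal.subset_span ⟨i, by simp, rfl⟩)

open MvPowerSeries in
theorem regRev_X (l : List (Fin n)) (hl : l.Nodup) :
    RegRev (l.map (fun i => (X i : MvPowerSeries (Fin n) k))) := by
  classical
  induction l with
  | nil => trivial
  | cons i l ih =>
    rw [List.nodup_cons] at hl
    refine ⟨ih hl.2, ?_⟩
    have key : Ideal.ofList (l.map (fun i => (X i : MvPowerSeries (Fin n) k))) =
        Ideal.span ((fun i => (X i : MvPowerSeries (Fin n) k)) '' (l.toFinset : Set (Fin n))) := by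
      rw [Ideal.ofList]
      congr 1
      ext x
      simp
    rw [key]
    intro r hr
    rw [mem_span_X] at hr ⊢
    intro m hm
    have h1 := hr (m + Finsupp.single i 1) (by
      intro j hj
      have hji : j ≠ i := by
        rintro rfl
        exact hl.1 (by simpa using hj)
      rw [Finsupp.add_apply, hm j hj, Finsupp.single_eq_of_ne hji, add_zero])
    rw [add_comm m] at h1
    have h2 := coeff_add_monomial_mul (Finsupp.single i 1) m r (1 : k)
    rw [one_mul] at h2
    rw [← h2]
    exact h1

/-- `n` non-units generating an ideal of finite colength in `k[[x_1, …, x_n]]` are a regular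
sequence, in any order -/
theorem regRev_of_finite (us : List (MvPowerSeries (Fin n) k)) (hlen : us.length = n)
    (h0 : ∀ u ∈ us, MvPowerSeries.constantCoeff u = 0)
    (hfin : Module.Finite k (MvPowerSeries (Fin n) k ⧸ Ideal.ofList us)) :
    RegRev us := by
  have hmem : ∀ u : MvPowerSeries (Fin n) k, u ∈ maximalIdeal (MvPowerSeries (Fin n) k) ↔
      MvPowerSeries.constantCoeff u = 0 := by
    intro u
    rw [IsLocalRing.mem_maximalIdeal, mem_nonunits_iff, MvPowerSeries.isUnit_iff_constantCoeff,
      isUnit_iff_ne_zero, not_not]
  have hart : IsArtinianRing (MvPowerSeries (Fin n) k ⧸ Ideal.ofList us) :=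
    IsArtinianRing.of_finite k _
  obtain ⟨N, hN⟩ := IsLocalRing.exists_maximalIdeal_pow_le_of_isArtinianRing_quotient
    (Ideal.ofList us)
  rw [regRev_iff]
  have hX : IsRegular (MvPowerSeries (Fin n) k)
      ((List.finRange n).map (fun i => (MvPowerSeries.X i : MvPowerSeries (Fin n) k))) := by
    rw [IsLocalRing.isRegular_iff_isWeaklyRegular_of_subset_maximalIdeal]
    · have := regRev_X (k := k) (List.finRange n).reverse
        (List.nodup_reverse.mpr (List.nodup_finRange n))
      rw [regRev_iff, ← List.map_reverse, List.reverse_reverse] at this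
      exact this
    · intro x hx
      obtain ⟨i, _, rfl⟩ := List.mem_map.mp hx
      rw [hmem]
      simp
  have := cm_regular (A := MvPowerSeries (Fin n) k) n (MvPowerSeries (Fin n) k)
    ((List.finRange n).map (fun i => (MvPowerSeries.X i : MvPowerSeries (Fin n) k)))
    (by simp) (by
      intro x hx
      obtain ⟨i, _, rfl⟩ := List.mem_map.mp hx
      rw [hmem]
      simp) hX us.reverse (by simpa using hlen) (by
      intro u hu
      rw [hmem]
      exact h0 u (by simpa using hu)) (by
      rw [ofList_reverse]
      refine le_trans ?_ (Ideal.radical_mono le_sup_left)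
      intro x hx
      exact ⟨N, hN (Ideal.pow_mem_pow hx N)⟩)
  exact this.toIsWeaklyRegular

end PS

end Pool.Agent.Q171.KT
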