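import Mathlib
import Pool.Agent.Q171.KT.Hom
import Pool.Agent.Q171.KT.PS

/-!
# Twisted Koszul complexes as differential modules
-/

set_option autoImplicit false

namespace Pool.Agent.Q171.KT

open LinearMap Module

variable {k R : Type} [Field k] [CommRing R] [Algebra k R] {γ : R →ₐ[k] R}

/-- a differential `R`-module with a `γ`-semilinear endomorphism anticommuting with `d` -/
structure DM (γ : R →ₐ[k] R) where
  C : Type
  [acg : AddCommGroup C]
  [modR : Module R C]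
  [modk : Module k C]
  [tower : IsScalarTower k R C]
  d : C →ₗ[R] C
  T : C →ₗ[k] C
  dd : ∀ x, d (d x) = 0
  Td : ∀ x, T (d x) = - d (T x)
  Tr : ∀ (r : R) x, T (r • x) = γ r • T x

attribute [instance] DM.acg DM.modR DM.modk DM.tower

namespace DM

/-- the differential over `k` -/
def dk (D : DM γ) : D.C →ₗ[k] D.C := D.d.restrictScalars k

theorem dk_apply (D : DM γ) (x : D.C) : D.dk x = D.d x := rfl

theorem h1 (D : DM γ) : ∀ x, D.dk x = 0 → D.dk (D.T x) = 0 := by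
  intro x hx
  rw [dk_apply] at hx ⊢
  have := D.Td x
  rw [hx, map_zero] at this
  rw [← neg_eq_zero, ← this]

theorem h2 (D : DM γ) : ∀ x, ∃ y, D.dk y = D.T (D.dk x) := by
  intro x
  refine ⟨- D.T x, ?_⟩
  rw [dk_apply, dk_apply, D.Td, map_neg]

/-- the homology is finite-dimensional -/
def Fin (D : DM γ) : Prop := FiniteDimensional k (Hm D.dk)

/-- the trace of `T` on the homology -/
noncomputable def chi (D : DM γ) : k :=
  LinearMap.trace k (Hm D.dk) (hmap D.dk D.dk D.T D.h1 D.h2)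

/-- isomorphic differential modules -/
def Iso (D D' : DM γ) : Prop :=
  ∃ e : D.C ≃ₗ[R] D'.C, (∀ x, e (D.d x) = D'.d (e x)) ∧ (∀ x, e (D.T x) = D'.T (e x))

theorem Iso.refl (D : DM γ) : Iso D D := ⟨LinearEquiv.refl R D.C, fun _ => rfl, fun _ => rfl⟩

theorem Iso.trans {D D' D'' : DM γ} (h : Iso D D') (h' : Iso D' D'') : Iso D D'' := by
  obtain ⟨e, h1, h2⟩ := h
  obtain ⟨e', h1', h2'⟩ := h'
  refine ⟨e.trans e', fun x => ?_, fun x => ?_⟩
  · rw [LinearEquiv.trans_apply, h1, h1']; rfl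
  · rw [LinearEquiv.trans_apply, h2, h2']; rfl

theorem Iso.chi {D D' : DM γ} (h : Iso D D') : D'.chi = D.chi := by
  obtain ⟨e, h1, h2⟩ := h
  exact iso_trace D.dk D.T D'.dk D'.T (e.restrictScalars k) (fun x => h1 x) (fun x => h2 x)
    _ _ _ _

end DM

/-- an eigenvector of `γ` in `R` -/
structure Eig (γ : R →ₐ[k] R) where
  u : R
  l : k
  h : γ u = l • u

/-- the mapping cone of multiplication by an eigenvector -/
def cone (p : Eig γ) (D : DM γ) : DM γ where
  C := D.C × D.C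
  d := LinearMap.prod (D.d.comp (LinearMap.fst R D.C D.C) + p.u • LinearMap.snd R D.C D.C)
    (-(D.d.comp (LinearMap.snd R D.C D.C)))
  T := LinearMap.prod (D.T.comp (LinearMap.fst k D.C D.C))
    (-(p.l • (D.T.comp (LinearMap.snd k D.C D.C))))
  dd := by
    rintro ⟨a, b⟩
    simp only [LinearMap.prod_apply, Function.prod_apply, LinearMap.add_apply,
      LinearMap.comp_apply, LinearMap.fst_apply, LinearMap.smul_apply, LinearMap.snd_apply,
      LinearMap.neg_apply]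
    rw [map_add, D.dd, map_neg, D.dd, map_smul]
    simp
  Td := by
    rintro ⟨a, b⟩
    simp only [LinearMap.prod_apply, Function.prod_apply, LinearMap.add_apply,
      LinearMap.comp_apply, LinearMap.fst_apply, LinearMap.smul_apply, LinearMap.snd_apply,
      LinearMap.neg_apply]
    have hl : ∀ (l : k) (x : D.C), D.d (l • x) = l • D.d x := fun l x =>
      map_smul (D.d.restrictScalars k) l x
    rw [map_add, D.Td, D.Tr, p.h, map_neg, D.Td, map_neg, hl]
    ext
    · simp only [Prod.fst_neg, neg_add, smul_neg, neg_neg]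
      rw [smul_assoc, smul_comm p.l p.u]
    · simp only [Prod.snd_neg, smul_neg, neg_neg]
  Tr := by
    rintro r ⟨a, b⟩
    simp only [LinearMap.prod_apply, Function.prod_apply, 
      LinearMap.comp_apply, LinearMap.fst_apply, LinearMap.smul_apply, LinearMap.snd_apply,
      LinearMap.neg_apply, Prod.smul_mk]
    rw [D.Tr, D.Tr, smul_neg, smul_comm p.l]

theorem cone_d (p : Eig γ) (D : DM γ) (a b : D.C) :
    (cone p D).d (a, b) = (D.d a + p.u • b, - D.d b) := rfl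

theorem cone_T (p : Eig γ) (D : DM γ) (a b : D.C) :
    (cone p D).T (a, b) = (D.T a, -(p.l • D.T b)) := rfl

/-- the trace on the homology of a cone -/
theorem chi_cone (p : Eig γ) (D : DM γ) (h : D.Fin) :
    (cone p D).Fin ∧ (cone p D).chi = (1 - p.l) * D.chi :=
  cone_trace D.dk ((p.u • (LinearMap.id : D.C →ₗ[R] D.C)).restrictScalars k) D.T
    (cone p D).dk (cone p D).T p.l
    (fun x => map_smul D.d p.u x)
    (fun x => by
      change D.T (p.u • x) = p.l • (p.u • D.T x)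
      rw [D.Tr, p.h, smul_assoc])
    (fun a b => rfl) (fun a b => rfl) h _ _ _ _

/-- cones respect isomorphisms -/
theorem cone_congr (p : Eig γ) {D D' : DM γ} (h : D.Iso D') : (cone p D).Iso (cone p D') := by
  obtain ⟨e, h1, h2⟩ := h
  refine ⟨LinearEquiv.prodCongr e e, ?_, ?_⟩
  · rintro ⟨a, b⟩
    change (e (D.d a + p.u • b), e (- D.d b)) = (D'.d (e a) + p.u • e b, - D'.d (e b))
    rw [map_add, h1, map_smul, map_neg, h1]
  · rintro ⟨a, b⟩
    change (e (D.T a), e (-(p.l • D.T b))) = (D'.T (e a), -(p.l • D'.T (e b)))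
    have hl : e (p.l • D.T b) = p.l • e (D.T b) := map_smul (e.restrictScalars k) p.l (D.T b)
    rw [h2, map_neg, hl, h2]

/-- cones commute -/
theorem cone_swap (p q : Eig γ) (D : DM γ) :
    (cone p (cone q D)).Iso (cone q (cone p D)) := by
  let e : ((D.C × D.C) × (D.C × D.C)) ≃ₗ[R] ((D.C × D.C) × (D.C × D.C)) :=
    { toFun := fun x => ((x.1.1, x.2.1), (x.1.2, - x.2.2))
      invFun := fun x => ((x.1.1, x.2.1), (x.1.2, - x.2.2))
      map_add' := by
        rintro ⟨⟨a, b⟩, ⟨c, f⟩⟩ ⟨⟨a', b'⟩, ⟨c', f'⟩⟩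
        simp only [Prod.mk_add_mk, neg_add]
      map_smul' := by
        rintro r ⟨⟨a, b⟩, ⟨c, f⟩⟩
        simp only [Prod.smul_mk, RingHom.id_apply, smul_neg]
      left_inv := by
        rintro ⟨⟨a, b⟩, ⟨c, f⟩⟩
        simp only [neg_neg]
      right_inv := by
        rintro ⟨⟨a, b⟩, ⟨c, f⟩⟩
        simp only [neg_neg] }
  refine ⟨e, ?_, ?_⟩
  · rintro ⟨⟨a, b⟩, ⟨c, f⟩⟩
    change e ((D.d a + q.u • b, - D.d b) + p.u • (c, f), -(D.d c + q.u • f, - D.d f)) =
      ((D.d a + p.u • c, - D.d c) + q.u • (b, -f), -(D.d b + p.u • (-f), - D.d (-f)))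
    simp only [e, LinearEquiv.coe_mk, LinearMap.coe_mk, AddHom.coe_mk, Prod.smul_mk, Prod.mk_add_mk,
      Prod.neg_mk, map_neg, smul_neg, neg_add, neg_neg]
    ext
    · simp only
      abel
    · simp only
    · simp only
    · simp only
  · rintro ⟨⟨a, b⟩, ⟨c, f⟩⟩
    change e ((D.T a, -(q.l • D.T b)), -(p.l • (D.T c, -(q.l • D.T f)))) =
      ((D.T a, -(p.l • D.T c)), -(q.l • (D.T b, -(p.l • D.T (-f)))))
    simp only [e, LinearEquiv.coe_mk, LinearMap.coe_mk, AddHom.coe_mk, Prod.smul_mk,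
      Prod.neg_mk, map_neg, smul_neg, neg_neg]
    rw [smul_comm p.l q.l]

/-- the twisted Koszul complex -/
def Kos (ps : List (Eig γ)) (D : DM γ) : DM γ := ps.foldr cone D

theorem Kos_perm {ps qs : List (Eig γ)} (h : ps.Perm qs) (D : DM γ) :
    (Kos ps D).Iso (Kos qs D) := by
  induction h with
  | nil => exact DM.Iso.refl _
  | cons p _ ih => exact cone_congr p ih
  | swap p q l => exact cone_swap q p (Kos l D)
  | trans _ _ ih1 ih2 => exact ih1.trans ih2

theorem Kos_append (ps qs : List (Eig γ)) (D : DM γ) : Kos (ps ++ qs) D = Kos ps (Kos qs D) := by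
  rw [Kos, List.foldr_append]; rfl

theorem chi_kos (ps : List (Eig γ)) (D : DM γ) (h : D.Fin) :
    (Kos ps D).Fin ∧ (Kos ps D).chi = (ps.map (fun p => 1 - p.l)).prod * D.chi := by
  induction ps with
  | nil => exact ⟨h, by simp [Kos]⟩
  | cons p ps ih =>
    obtain ⟨h1, h2⟩ := chi_cone p (Kos ps D) ih.1
    refine ⟨h1, ?_⟩
    change (cone p (Kos ps D)).chi = _
    rw [h2, ih.2, List.map_cons, List.prod_cons, mul_assoc]

/-- `ε` exhibits the homology of `D` as `R / I` -/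
structure Aug (D : DM γ) (ε : D.C →ₗ[R] R) (I : Ideal R) : Prop where
  eq : ∀ z, ε (D.T z) = γ (ε z)
  sec : ∀ r, ∃ z, D.d z = 0 ∧ ε z = r
  bd : ∀ z, ε (D.d z) ∈ I
  ex : ∀ z, D.d z = 0 → ε z ∈ I → ∃ w, D.d w = z

theorem aug_cone (p : Eig γ) (D : DM γ) (ε : D.C →ₗ[R] R) (I : Ideal R) (h : Aug D ε I)
    (hu : ∀ r, p.u * r ∈ I → r ∈ I) :
    Aug (cone p D) (ε.comp (LinearMap.fst R D.C D.C)) (Ideal.span {p.u} ⊔ I) := by
  refine ⟨?_, ?_, ?_, ?_⟩
  · rintro ⟨a, b⟩
    exact h.eq a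
  · intro r
    obtain ⟨z, hz, hr⟩ := h.sec r
    refine ⟨(z, 0), ?_, hr⟩
    rw [cone_d, hz, map_zero, smul_zero, neg_zero, add_zero]
    rfl
  · rintro ⟨a, b⟩
    change ε (D.d a + p.u • b) ∈ _
    rw [map_add, map_smul, smul_eq_mul]
    refine Ideal.add_mem _ (Ideal.mem_sup_right (h.bd a)) (Ideal.mem_sup_left ?_)
    exact Ideal.mul_mem_right _ _ (Ideal.mem_span_singleton_self _)
  · rintro ⟨a, b⟩ hab hε
    rw [cone_d] at hab
    have hab1 : D.d a + p.u • b = 0 := congrArg Prod.fst hab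
    have hab2 : - D.d b = 0 := congrArg Prod.snd hab
    have hb : D.d b = 0 := by simpa using hab2
    have h1 : p.u * ε b ∈ I := by
      have h2 : p.u * ε b = - ε (D.d a) := by
        rw [eq_neg_iff_add_eq_zero, add_comm, ← smul_eq_mul, ← map_smul, ← map_add, hab1, map_zero]
      rw [h2]
      exact I.neg_mem (h.bd a)
    obtain ⟨c, hc⟩ := h.ex (-b) (by rw [map_neg, hb, neg_zero]) (by
      rw [map_neg]; exact I.neg_mem (hu _ h1))
    -- `-d c = b`
    have hε' : ε a ∈ Ideal.span {p.u} ⊔ I := hε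
    obtain ⟨y, hy, i, hi, hyi⟩ := Submodule.mem_sup.mp hε'
    obtain ⟨s, rfl⟩ := Ideal.mem_span_singleton.mp hy
    obtain ⟨z, hz, hzr⟩ := h.sec (s - ε c)
    obtain ⟨x, hx⟩ := h.ex (a - p.u • c - p.u • z) (by
      rw [map_sub, map_sub, map_smul, map_smul, hc, hz, smul_zero, sub_zero, smul_neg, sub_neg_eq_add]
      exact hab1) (by
      rw [map_sub, map_sub, map_smul, map_smul, hzr, ← hyi, smul_eq_mul, smul_eq_mul]
      have : p.u * s + i - p.u * ε c - p.u * (s - ε c) = i := by ring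
      rw [this]
      exact hi)
    refine ⟨(x, c + z), ?_⟩
    rw [cone_d, hx, map_add, hc, hz, smul_add]
    refine Prod.ext ?_ ?_
    · change a - p.u • c - p.u • z + (p.u • c + p.u • z) = a
      abel
    · change -(-b + 0) = b
      abel

/-- the ring itself as a differential module -/
def base (γ : R →ₐ[k] R) : DM γ where
  C := R
  d := 0
  T := γ.toLinearMap
  dd := fun _ => rfl
  Td := fun _ => by simp
  Tr := fun r x => by simp

theorem aug_base (γ : R →ₐ[k] R) : Aug (base γ) (LinearMap.id : R →ₗ[R] R) ⊥ where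
  eq := fun _ => rfl
  sec := fun r => ⟨r, rfl, rfl⟩
  bd := fun _ => by
    change (0 : R) ∈ _
    exact Ideal.zero_mem _
  ex := fun z _ h2 => by
    have : z = (0 : R) := h2
    exact ⟨(0 : R), this.symm⟩

theorem aug_kos (ps : List (Eig γ)) (h : RegRev (ps.map Eig.u)) :
    ∃ ε, Aug (Kos ps (base γ)) ε (Ideal.ofList (ps.map Eig.u)) := by
  induction ps with
  | nil =>
    refine ⟨(LinearMap.id : R →ₗ[R] R), ?_⟩
    rw [List.map_nil, Ideal.ofList_nil]
    exact aug_base γ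
  | cons p ps ih =>
    obtain ⟨h1, h2⟩ := h
    obtain ⟨ε, hε⟩ := ih h1
    rw [List.map_cons, Ideal.ofList_cons]
    exact ⟨_, aug_cone p _ ε _ hε h2⟩

/-- the trace on the homology of a resolution of `R / I` -/
theorem chi_aug (D : DM γ) (ε : D.C →ₗ[R] R) (I : Ideal R) (h : Aug D ε I)
    (hfin : FiniteDimensional k (R ⧸ I)) (S : (R ⧸ I) →ₗ[k] (R ⧸ I))
    (hS : ∀ r, S (Ideal.Quotient.mk I r) = Ideal.Quotient.mk I (γ r)) :
    D.Fin ∧ D.chi = LinearMap.trace k (R ⧸ I) S := by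
  let f : ↥(ker D.dk) →ₗ[k] (R ⧸ I) :=
    ((Submodule.mkQ I).restrictScalars k).comp ((ε.restrictScalars k).comp (ker D.dk).subtype)
  have hf : ∀ x hx, f ⟨x, hx⟩ = Ideal.Quotient.mk I (ε x) := fun _ _ => rfl
  have hker : ker f = Submodule.comap (ker D.dk).subtype (range D.dk) := by
    apply Submodule.ext
    rintro ⟨x, hx⟩
    rw [LinearMap.mem_ker, hf, Ideal.Quotient.eq_zero_iff_mem, Submodule.mem_comap,
      Submodule.subtype_apply, LinearMap.mem_range]
    constructor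
    · intro h3
      obtain ⟨w, hw⟩ := h.ex x hx h3
      exact ⟨w, hw⟩
    · rintro ⟨w, rfl⟩
      exact h.bd w
  let g : Hm D.dk →ₗ[k] (R ⧸ I) := Submodule.liftQ _ f hker.ge
  have hg : ∀ x hx, g (hmk D.dk x hx) = Ideal.Quotient.mk I (ε x) := fun _ _ => rfl
  have hinj : Function.Injective g := by
    rw [injective_iff_map_eq_zero]
    intro z hz
    obtain ⟨x, hx, rfl⟩ := hmk_surj D.dk z
    rw [hg, Ideal.Quotient.eq_zero_iff_mem] at hz
    rw [hmk_eq_zero]
    exact h.ex x hx hz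
  have hsurj : Function.Surjective g := by
    intro y
    obtain ⟨r, rfl⟩ := Ideal.Quotient.mk_surjective y
    obtain ⟨z, hz, rfl⟩ := h.sec r
    exact ⟨hmk D.dk z hz, hg z hz⟩
  let e : Hm D.dk ≃ₗ[k] (R ⧸ I) := LinearEquiv.ofBijective g ⟨hinj, hsurj⟩
  refine ⟨Module.Finite.equiv e.symm, ?_⟩
  refine trace_conj_of_comm e _ _ ?_
  intro z
  obtain ⟨x, hx, rfl⟩ := hmk_surj D.dk z
  change g (hmap D.dk D.dk D.T D.h1 D.h2 (hmk D.dk x hx)) = S (g (hmk D.dk x hx))
  rw [hmap_hmk, hg, hg, hS, h.eq]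

/-- **Main comparison**: two permuted sequences of eigenvectors. -/
theorem comparison (ps qs rs ts : List (Eig γ)) (hperm : (ps ++ qs).Perm (rs ++ ts))
    (h1 : RegRev (qs.map Eig.u)) (h2 : RegRev (ts.map Eig.u))
    (f1 : FiniteDimensional k (R ⧸ Ideal.ofList (qs.map Eig.u)))
    (f2 : FiniteDimensional k (R ⧸ Ideal.ofList (ts.map Eig.u)))
    (S1 : (R ⧸ Ideal.ofList (qs.map Eig.u)) →ₗ[k] (R ⧸ Ideal.ofList (qs.map Eig.u)))
    (hS1 : ∀ r, S1 (Ideal.Quotient.mk _ r) = Ideal.Quotient.mk _ (γ r))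
    (S2 : (R ⧸ Ideal.ofList (ts.map Eig.u)) →ₗ[k] (R ⧸ Ideal.ofList (ts.map Eig.u)))
    (hS2 : ∀ r, S2 (Ideal.Quotient.mk _ r) = Ideal.Quotient.mk _ (γ r)) :
    (ps.map (fun p => 1 - p.l)).prod * LinearMap.trace k _ S1 =
      (rs.map (fun p => 1 - p.l)).prod * LinearMap.trace k _ S2 := by
  obtain ⟨ε1, a1⟩ := aug_kos qs h1
  obtain ⟨ε2, a2⟩ := aug_kos ts h2
  obtain ⟨b1, c1⟩ := chi_aug _ ε1 _ a1 f1 S1 hS1
  obtain ⟨b2, c2⟩ := chi_aug _ ε2 _ a2 f2 S2 hS2
  have d1 := (chi_kos ps _ b1).2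
  have d2 := (chi_kos rs _ b2).2
  rw [c1, ← Kos_append] at d1
  rw [c2, ← Kos_append] at d2
  rw [← d1, ← d2]
  exact (Kos_perm hperm (base γ)).chi.symm

theorem comparison' (ps qs rs ts : List (Eig γ)) (hperm : (ps ++ qs).Perm (rs ++ ts))
    (h1 : RegRev (qs.map Eig.u)) (h2 : RegRev (ts.map Eig.u)) (I J : Ideal R)
    (hI : Ideal.ofList (qs.map Eig.u) = I) (hJ : Ideal.ofList (ts.map Eig.u) = J)
    (f1 : FiniteDimensional k (R ⧸ I)) (f2 : FiniteDimensional k (R ⧸ J))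
    (S1 : (R ⧸ I) →ₗ[k] (R ⧸ I))
    (hS1 : ∀ r, S1 (Ideal.Quotient.mk _ r) = Ideal.Quotient.mk _ (γ r))
    (S2 : (R ⧸ J) →ₗ[k] (R ⧸ J))
    (hS2 : ∀ r, S2 (Ideal.Quotient.mk _ r) = Ideal.Quotient.mk _ (γ r)) :
    (ps.map (fun p => 1 - p.l)).prod * LinearMap.trace k _ S1 =
      (rs.map (fun p => 1 - p.l)).prod * LinearMap.trace k _ S2 := by
  subst hI
  subst hJ
  exact comparison ps qs rs ts hperm h1 h2 f1 f2 S1 hS1 S2 hS2

end Pool.Agent.Q171.KT
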