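import Mathlib
import Pool.Agent.Q171.KT.PS

/-!
# Algebra homomorphisms out of power series rings which kill a power of the maximal ideal;
diagonalisation of matrices of finite order
-/

set_option autoImplicit false

namespace Pool.Agent.Q171.KT

open MvPowerSeries

section hom

variable {n : ℕ}

/-- the ideal of the variables -/
noncomputable def mI (n : ℕ) : Ideal (MvPowerSeries (Fin n) ℂ) :=
  Ideal.span (Set.range (fun i => (X i : MvPowerSeries (Fin n) ℂ)))

theorem mem_mI (r : MvPowerSeries (Fin n) ℂ) : r ∈ mI n ↔ constantCoeff r = 0 := by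
  have h := mem_span_X (k := ℂ) (Finset.univ : Finset (Fin n)) r
  rw [Finset.coe_univ, Set.image_univ] at h
  rw [mI, h]
  constructor
  · intro h1
    exact h1 0 (fun _ _ => rfl)
  · intro h1 m hm
    have : m = 0 := by
      ext i
      exact hm i (Finset.mem_univ i)
    rw [this]
    exact h1

theorem mI_eq : mI n = IsLocalRing.maximalIdeal (MvPowerSeries (Fin n) ℂ) := by
  ext u
  rw [mem_mI, IsLocalRing.mem_maximalIdeal, mem_nonunits_iff,
    MvPowerSeries.isUnit_iff_constantCoeff, isUnit_iff_ne_zero, not_not]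

/-- every power series is a polynomial modulo `m^N` -/
theorem exists_poly (N : ℕ) : ∀ r : MvPowerSeries (Fin n) ℂ,
    ∃ p : MvPolynomial (Fin n) ℂ, r - (p : MvPowerSeries (Fin n) ℂ) ∈ mI n ^ N := by
  induction N with
  | zero => intro r; exact ⟨0, by simp⟩
  | succ N ih =>
    intro r
    have h1 : r - C (constantCoeff r) ∈ mI n := by
      rw [mem_mI]
      simp
    rw [mI, Ideal.mem_span_range_iff_exists_fun] at h1
    obtain ⟨c, hc⟩ := h1
    choose p hp using fun i => ih (c i)
    refine ⟨MvPolynomial.C (constantCoeff r) + ∑ i, p i * MvPolynomial.X i, ?_⟩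
    have h2 : ((MvPolynomial.C (constantCoeff r) + ∑ i, p i * MvPolynomial.X i :
        MvPolynomial (Fin n) ℂ) : MvPowerSeries (Fin n) ℂ) =
        C (constantCoeff r) + ∑ i, (p i : MvPowerSeries (Fin n) ℂ) * X i := by
      rw [MvPolynomial.coe_add, MvPolynomial.coe_C]
      congr 1
      have := map_sum (MvPolynomial.coeToMvPowerSeries.ringHom (σ := Fin n) (R := ℂ))
        (fun i => p i * MvPolynomial.X i) Finset.univ
      simp only [MvPolynomial.coeToMvPowerSeries.ringHom_apply, MvPolynomial.coe_mul,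
        MvPolynomial.coe_X] at this
      exact this
    rw [h2]
    have h3 : r - (C (constantCoeff r) + ∑ i, (p i : MvPowerSeries (Fin n) ℂ) * X i) =
        ∑ i, (c i - (p i : MvPowerSeries (Fin n) ℂ)) * X i := by
      simp only [sub_mul, Finset.sum_sub_distrib]
      rw [hc]
      ring
    rw [h3]
    refine Ideal.sum_mem _ fun i _ => ?_
    rw [pow_succ]
    exact Ideal.mul_mem_mul (hp i) (Ideal.subset_span ⟨i, rfl⟩)

theorem hom_ext {B : Type} [CommRing B] [Algebra ℂ B] (f g : MvPowerSeries (Fin n) ℂ →ₐ[ℂ] B)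
    (hX : ∀ i, f (X i) = g (X i)) (N : ℕ) (hf : ∀ r ∈ mI n ^ N, f r = 0)
    (hg : ∀ r ∈ mI n ^ N, g r = 0) (r : MvPowerSeries (Fin n) ℂ) : f r = g r := by
  obtain ⟨p, hp⟩ := exists_poly N r
  have h1 : f r = f (p : MvPowerSeries (Fin n) ℂ) := by
    rw [← sub_eq_zero, ← map_sub]
    exact hf _ hp
  have h2 : g r = g (p : MvPowerSeries (Fin n) ℂ) := by
    rw [← sub_eq_zero, ← map_sub]
    exact hg _ hp
  have h3 : f.comp (MvPolynomial.coeToMvPowerSeries.algHom ℂ (σ := Fin n) (R := ℂ)) =
      g.comp (MvPolynomial.coeToMvPowerSeries.algHom ℂ) := by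
    apply MvPolynomial.algHom_ext
    intro i
    simpa using hX i
  have h4 := congrArg (fun F => F p) h3
  rw [h1, h2]
  simpa using h4

end hom

/-- matrices of finite order over `ℂ` are diagonalisable -/
theorem exists_diag {n : ℕ} (G : Matrix (Fin n) (Fin n) ℂ) (N : ℕ) (hN : 0 < N) (hG : G ^ N = 1) :
    ∃ (B B' : Matrix (Fin n) (Fin n) ℂ) (d : Fin n → ℂ), B' * B = 1 ∧ B * B' = 1 ∧
      G = B * Matrix.diagonal d * B' := by
  classical
  set f : Module.End ℂ (Fin n → ℂ) := Matrix.toLin' G with hf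
  have hfN : f ^ N = 1 := by
    rw [hf, ← Matrix.toLin'_pow, hG, Matrix.toLin'_one]
    rfl
  have hsep : (Polynomial.X ^ N - 1 : Polynomial ℂ).Separable := by
    rw [Polynomial.X_pow_sub_one_separable_iff]
    exact_mod_cast hN.ne'
  have hss : f.IsSemisimple := by
    apply Module.End.isSemisimple_of_squarefree_aeval_eq_zero hsep.squarefree
    simp [hfN]
  have htop := hss.iSup_eigenspace_eq_top
  have hint : DirectSum.IsInternal f.eigenspace :=
    DirectSum.isInternal_submodule_of_iSupIndep_of_iSup_eq_top f.eigenspaces_iSupIndep htop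
  set b0 := hint.collectedBasis (fun μ => Module.finBasis ℂ (f.eigenspace μ)) with hb0
  have hfin : Finite (Σ μ : ℂ, Fin (Module.finrank ℂ (f.eigenspace μ))) :=
    Module.Finite.finite_basis b0
  have : Fintype (Σ μ : ℂ, Fin (Module.finrank ℂ (f.eigenspace μ))) := Fintype.ofFinite _
  have hcard : Fintype.card (Σ μ : ℂ, Fin (Module.finrank ℂ (f.eigenspace μ))) =
      Fintype.card (Fin n) := by
    rw [← Module.finrank_eq_card_basis b0, Module.finrank_fintype_fun_eq_card]
  have e := Fintype.equivOfCardEq hcard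
  set b : Module.Basis (Fin n) ℂ (Fin n → ℂ) := b0.reindex e with hb
  set d : Fin n → ℂ := fun i => (e.symm i).1 with hd
  have hbi : ∀ i, G.mulVec (b i) = d i • b i := by
    intro i
    have h1 : b i = b0 (e.symm i) := by rw [hb, Module.Basis.reindex_apply]
    have h2 : b i ∈ f.eigenspace (d i) := by
      rw [h1]
      exact hint.collectedBasis_mem _ _
    rw [Module.End.mem_eigenspace_iff, hf, Matrix.toLin'_apply] at h2
    exact h2
  set B : Matrix (Fin n) (Fin n) ℂ := (Pi.basisFun ℂ (Fin n)).toMatrix b with hB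
  set B' : Matrix (Fin n) (Fin n) ℂ := b.toMatrix (Pi.basisFun ℂ (Fin n)) with hB'
  have h1 : B' * B = 1 := Module.Basis.toMatrix_mul_toMatrix_flip _ _
  have h2 : B * B' = 1 := Module.Basis.toMatrix_mul_toMatrix_flip _ _
  have h3 : G * B = B * Matrix.diagonal d := by
    ext i j
    have h4 := congrFun (hbi j) i
    rw [Matrix.mul_diagonal, Matrix.mul_apply]
    simp only [hB, Module.Basis.toMatrix_apply, Pi.basisFun_repr]
    rw [Matrix.mulVec, dotProduct] at h4
    rw [h4, Pi.smul_apply, smul_eq_mul, mul_comm]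
  refine ⟨B, B', d, h1, h2, ?_⟩
  calc G = G * (B * B') := by rw [h2, mul_one]
    _ = B * Matrix.diagonal d * B' := by rw [← mul_assoc, h3]

end Pool.Agent.Q171.KT
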