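import Mathlib
import Pool.Agent.Q171.KT.DM
import Pool.Agent.Q171.KT.PSHom

/-!
# The trace formula for equivariant maps
-/

set_option autoImplicit false

namespace Pool.Agent.Q171.KT

open MvPowerSeries

variable {n : ℕ}

/-- the ring of formal power series -/
abbrev PR (n : ℕ) : Type := MvPowerSeries (Fin n) ℂ

/-- linear combinations of a tuple -/
noncomputable def comb {V : Type} [AddCommGroup V] [Module ℂ V] (M : Matrix (Fin n) (Fin n) ℂ)
    (h : Fin n → V) (i : Fin n) : V := ∑ j, M i j • h j

theorem comb_mul {V : Type} [AddCommGroup V] [Module ℂ V] (M N : Matrix (Fin n) (Fin n) ℂ)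
    (h : Fin n → V) : comb (M * N) h = comb M (comb N h) := by
  funext i
  simp only [comb, Matrix.mul_apply, Finset.sum_smul, Finset.smul_sum, smul_smul]
  rw [Finset.sum_comm]

theorem comb_one {V : Type} [AddCommGroup V] [Module ℂ V] (h : Fin n → V) :
    comb (1 : Matrix (Fin n) (Fin n) ℂ) h = h := by
  funext i
  simp [comb, Matrix.one_apply, ite_smul]

theorem comb_diagonal {V : Type} [AddCommGroup V] [Module ℂ V] (d : Fin n → ℂ) (h : Fin n → V)
    (i : Fin n) : comb (Matrix.diagonal d) h i = d i • h i := by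
  simp [comb, Matrix.diagonal_apply, ite_smul]

theorem comb_mem (M : Matrix (Fin n) (Fin n) ℂ) (h : Fin n → PR n) (I : Ideal (PR n))
    (hI : ∀ i, h i ∈ I) (i : Fin n) : comb M h i ∈ I := by
  refine Ideal.sum_mem _ fun j _ => ?_
  exact Submodule.smul_of_tower_mem I _ (hI j)

theorem map_comb {V W : Type} [AddCommGroup V] [Module ℂ V] [AddCommGroup W] [Module ℂ W]
    (γ : V →ₗ[ℂ] W) (M : Matrix (Fin n) (Fin n) ℂ) (h : Fin n → V) (i : Fin n) :
    γ (comb M h i) = comb M (fun j => γ (h j)) i := by
  simp [comb]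

/-- eigenvectors from a tuple on which `γ` acts through `A = B diag(ζ) P` -/
theorem eig_of {γ : PR n →ₐ[ℂ] PR n} {A B P : Matrix (Fin n) (Fin n) ℂ} {ζ : Fin n → ℂ}
    (hPB : P * B = 1) (hA : A = B * Matrix.diagonal ζ * P) (h : Fin n → PR n)
    (hγ : ∀ i, γ (h i) = comb A h i) (i : Fin n) : γ (comb P h i) = ζ i • comb P h i := by
  have h1 := map_comb γ.toLinearMap P h i
  rw [AlgHom.toLinearMap_apply] at h1
  rw [h1]
  have h2 : (fun j => γ.toLinearMap (h j)) = comb A h := by
    funext j
    exact hγ j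
  rw [h2, ← comb_mul]
  have h3 : P * A = Matrix.diagonal ζ * P := by
    rw [hA, mul_assoc, ← mul_assoc P, hPB, one_mul]
  rw [h3, comb_mul, comb_diagonal]

/-- polynomials as power series -/
noncomputable def cA (n : ℕ) : MvPolynomial (Fin n) ℂ →ₐ[ℂ] PR n :=
  MvPolynomial.coeToMvPowerSeries.algHom ℂ

theorem cA_apply (p : MvPolynomial (Fin n) ℂ) : cA n p = (p : PR n) := by
  rw [cA, MvPolynomial.coeToMvPowerSeries.algHom_apply]
  simp

theorem mem_ofList_map {ι : Type} {R : Type} [CommRing R] (l : List ι) (g : ι → R) (I : Ideal R) :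
    Ideal.ofList (l.map g) ≤ I ↔ ∀ i ∈ l, g i ∈ I := by
  rw [Ideal.ofList, Ideal.span_le]
  constructor
  · intro h i hi
    exact h (List.mem_map.mpr ⟨i, hi, rfl⟩)
  · intro h x hx
    obtain ⟨i, hi, rfl⟩ := List.mem_map.mp hx
    exact h i hi

theorem mem_ofList_of_mem {R : Type} [CommRing R] {l : List R} {x : R} (h : x ∈ l) :
    x ∈ Ideal.ofList l := Ideal.subset_span h

/-- the trace formula -/
theorem main (A : Matrix (Fin n) (Fin n) ℂ) (N : ℕ) (hN : 0 < N) (hAN : A ^ N = 1)
    (f : Fin n → MvPolynomial (Fin n) ℂ)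
    (heq : ∀ i, MvPolynomial.aeval (fun j => comb A (fun k => (MvPolynomial.X k :
      MvPolynomial (Fin n) ℂ)) j) (f i) = comb A f i)
    (h0 : ∀ i, MvPolynomial.constantCoeff (f i) = 0)
    (I J : Ideal (PR n)) (hI : I = Ideal.span (Set.range fun i => (f i : PR n)))
    (hJ : J = Ideal.span (Set.range (fun i => (f i : PR n)) ∪
      Set.range (fun i => comb (A - 1) (fun k => (X k : PR n)) i)))
    (hfin : Module.Finite ℂ (PR n ⧸ I)) (T : (PR n ⧸ I) →ₐ[ℂ] (PR n ⧸ I))
    (hT : ∀ i, T (Ideal.Quotient.mk I (X i)) =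
      Ideal.Quotient.mk I (comb A (fun k => (X k : PR n)) i)) :
    LinearMap.trace ℂ (PR n ⧸ I) T.toLinearMap = (Module.finrank ℂ (PR n ⧸ J) : ℂ) := by
  classical
  obtain ⟨B, P, ζ, hPB, hBP, hA⟩ := exists_diag A N hN hAN
  -- the substitution
  have hs : HasSubst (fun i => comb A (fun k => (X k : PR n)) i) := by
    apply hasSubst_of_constantCoeff_zero
    intro i
    simp [comb]
  let γ : PR n →ₐ[ℂ] PR n := substAlgHom hs
  have hγX : ∀ i, γ (X i) = comb A (fun k => (X k : PR n)) i := fun i => substAlgHom_X hs i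
  have hγc : ∀ p : MvPolynomial (Fin n) ℂ, γ (p : PR n) = cA n (MvPolynomial.aeval
      (fun j => comb A (fun k => (MvPolynomial.X k : MvPolynomial (Fin n) ℂ)) j) p) := by
    intro p
    have h1 : γ.comp (cA n) = (cA n).comp (MvPolynomial.aeval
      (fun j => comb A (fun k => (MvPolynomial.X k : MvPolynomial (Fin n) ℂ)) j)) := by
      apply MvPolynomial.algHom_ext
      intro i
      rw [AlgHom.comp_apply, AlgHom.comp_apply, MvPolynomial.aeval_X, cA_apply,
        MvPolynomial.coe_X, hγX]
      have h2 := map_comb (cA n).toLinearMap A (fun k => (MvPolynomial.X k :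
        MvPolynomial (Fin n) ℂ)) i
      rw [AlgHom.toLinearMap_apply] at h2
      rw [h2]
      congr 1
      funext k
      rw [AlgHom.toLinearMap_apply, cA_apply, MvPolynomial.coe_X]
    have h2 := congrArg (fun F => F p) h1
    simp only [AlgHom.comp_apply] at h2
    rw [cA_apply] at h2
    exact h2
  have hγf : ∀ i, γ (f i : PR n) = comb A (fun k => (f k : PR n)) i := by
    intro i
    rw [hγc, heq]
    have h2 := map_comb (cA n).toLinearMap A f i
    rw [AlgHom.toLinearMap_apply] at h2
    rw [h2]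
    congr 1
  -- eigenvectors
  let F : Fin n → PR n := comb P (fun k => (f k : PR n))
  let L : Fin n → PR n := comb P (fun k => (X k : PR n))
  have hF : ∀ i, γ (F i) = ζ i • F i := eig_of hPB hA _ hγf
  have hL : ∀ i, γ (L i) = ζ i • L i := eig_of hPB hA _ hγX
  let EF : Fin n → Eig γ := fun i => ⟨F i, ζ i, hF i⟩
  let EL : Fin n → Eig γ := fun i => ⟨L i, ζ i, hL i⟩
  let l1 : List (Fin n) := (List.finRange n).filter (fun i => decide (ζ i ≠ 1))
  let l0 : List (Fin n) := (List.finRange n).filter (fun i => !decide (ζ i ≠ 1))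
  have hperm0 : (l1 ++ l0).Perm (List.finRange n) := List.filter_append_perm _ _
  have hl1 : ∀ i, i ∈ l1 ↔ ζ i ≠ 1 := by
    intro i
    simp [l1]
  have hl0 : ∀ i, i ∈ l0 ↔ ζ i = 1 := by
    intro i
    simp [l0]
  have hlen : l0.length + l1.length = n := by
    have := hperm0.length_eq
    rw [List.length_append, List.length_finRange] at this
    omega
  -- constant coefficients
  have hF0 : ∀ i, constantCoeff (F i) = 0 := by
    intro i
    rw [← mem_mI]
    apply comb_mem
    intro j
    rw [mem_mI, ← h0 j]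
    rfl
  have hL0 : ∀ i, constantCoeff (L i) = 0 := by
    intro i
    rw [← mem_mI]
    apply comb_mem
    intro j
    rw [mem_mI]
    simp
  -- the ideal of the `f`'s
  have hIF : Ideal.ofList ((List.finRange n).map F) = I := by
    apply le_antisymm
    · rw [mem_ofList_map]
      intro i _
      apply comb_mem
      intro j
      rw [hI]
      exact Ideal.subset_span ⟨j, rfl⟩
    · rw [hI, Ideal.span_le]
      rintro _ ⟨i, rfl⟩
      have h1 : (fun k => (f k : PR n)) = comb B F := by
        rw [← comb_mul, hBP, comb_one]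
      have h2 : (f i : PR n) = comb B F i := congrFun h1 i
      change (f i : PR n) ∈ _
      rw [h2]
      apply comb_mem
      intro j
      exact mem_ofList_of_mem (List.mem_map.mpr ⟨j, List.mem_finRange j, rfl⟩)
  -- the ideal of the `(A - 1) X`
  let Y : Ideal (PR n) := Ideal.span (Set.range (fun i => comb (A - 1) (fun k => (X k : PR n)) i))
  have hA1 : A - 1 = B * (Matrix.diagonal (fun i => ζ i - 1) * P) := by
    have h1 : Matrix.diagonal (fun i => ζ i - 1) = Matrix.diagonal ζ - 1 := by
      rw [← Matrix.diagonal_one, Matrix.diagonal_sub]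
    rw [h1, sub_mul, mul_sub, ← mul_assoc, ← hA, one_mul, hBP]
  have hA1' : P * (A - 1) = Matrix.diagonal (fun i => ζ i - 1) * P := by
    rw [hA1, ← mul_assoc, hPB, one_mul]
  have hYL : Ideal.ofList (l1.map L) = Y := by
    apply le_antisymm
    · rw [mem_ofList_map]
      intro i hi
      rw [hl1] at hi
      have h1 : comb P (comb (A - 1) (fun k => (X k : PR n))) i = (ζ i - 1) • L i := by
        rw [← comb_mul, hA1', comb_mul, comb_diagonal]
      have h2 : comb P (comb (A - 1) (fun k => (X k : PR n))) i ∈ Y := by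
        apply comb_mem
        intro j
        exact Ideal.subset_span ⟨j, rfl⟩
      rw [h1] at h2
      have h3 : L i = (ζ i - 1)⁻¹ • ((ζ i - 1) • L i) := by
        rw [smul_smul, inv_mul_cancel₀ (sub_ne_zero.mpr hi), one_smul]
      rw [h3]
      exact Submodule.smul_of_tower_mem Y _ h2
    · rw [Ideal.span_le]
      rintro _ ⟨i, rfl⟩
      change comb (A - 1) (fun k => (X k : PR n)) i ∈ _
      rw [hA1, comb_mul]
      apply comb_mem
      intro j
      rw [comb_mul, comb_diagonal]
      by_cases hj : ζ j = 1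
      · rw [hj, sub_self, zero_smul]
        exact Ideal.zero_mem _
      · apply Submodule.smul_of_tower_mem
        exact mem_ofList_of_mem (List.mem_map.mpr ⟨j, (hl1 j).mpr hj, rfl⟩)
  -- `γ` is the identity modulo `Y` on polynomials
  have hγY : ∀ p : MvPolynomial (Fin n) ℂ, γ (p : PR n) - (p : PR n) ∈ Y := by
    intro p
    have h1 : ((Ideal.Quotient.mkₐ ℂ Y).comp γ).comp (cA n) =
        (Ideal.Quotient.mkₐ ℂ Y).comp (cA n) := by
      apply MvPolynomial.algHom_ext
      intro i
      simp only [AlgHom.comp_apply, cA_apply, MvPolynomial.coe_X, Ideal.Quotient.mkₐ_eq_mk]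
      rw [hγX, ← sub_eq_zero, ← map_sub, Ideal.Quotient.eq_zero_iff_mem]
      have h2 : comb A (fun k => (X k : PR n)) i - X i = comb (A - 1) (fun k => (X k : PR n)) i := by
        simp only [comb, Matrix.sub_apply, sub_smul, Finset.sum_sub_distrib]
        congr 1
        have := congrFun (comb_one (n := n) (fun k => (X k : PR n))) i
        rw [comb] at this
        exact this.symm
      rw [h2]
      exact Ideal.subset_span ⟨i, rfl⟩
    have h2 := congrArg (fun F => F p) h1
    simp only [AlgHom.comp_apply, cA_apply, Ideal.Quotient.mkₐ_eq_mk] at h2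
    rw [← sub_eq_zero, ← map_sub, Ideal.Quotient.eq_zero_iff_mem] at h2
    exact h2
  have hFY : ∀ i, ζ i ≠ 1 → F i ∈ Y := by
    intro i hi
    have h1 : F i = ((comb P f i : MvPolynomial (Fin n) ℂ) : PR n) := by
      have h2 := map_comb (cA n).toLinearMap P f i
      rw [AlgHom.toLinearMap_apply, cA_apply] at h2
      rw [h2]
      change comb P _ i = _
      congr 1
    have h3 := hγY (comb P f i)
    rw [← h1, hF] at h3
    have h4 : ζ i • F i - F i = (ζ i - 1) • F i := by rw [sub_smul, one_smul]
    rw [h4] at h3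
    have h5 : F i = (ζ i - 1)⁻¹ • ((ζ i - 1) • F i) := by
      rw [smul_smul, inv_mul_cancel₀ (sub_ne_zero.mpr hi), one_smul]
    rw [h5]
    exact Submodule.smul_of_tower_mem Y _ h3
  -- the second ideal
  have hJF : Ideal.ofList (l0.map F ++ l1.map L) = J := by
    rw [Ideal.ofList_append, hYL]
    apply le_antisymm
    · refine sup_le ?_ ?_
      · rw [mem_ofList_map]
        intro i _
        apply comb_mem
        intro j
        rw [hJ]
        exact Ideal.subset_span (Or.inl ⟨j, rfl⟩)
      · rw [hJ]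
        exact Ideal.span_mono Set.subset_union_right
    · rw [hJ, Ideal.span_union]
      refine sup_le ?_ le_sup_right
      rw [← hI, ← hIF, mem_ofList_map]
      intro i _
      by_cases hi : ζ i = 1
      · exact Ideal.mem_sup_left (mem_ofList_of_mem (List.mem_map.mpr ⟨i, (hl0 i).mpr hi, rfl⟩))
      · exact Ideal.mem_sup_right (hFY i hi)
  have hIJ : I ≤ J := by
    rw [hI, hJ]
    exact Ideal.span_mono Set.subset_union_left
  have hfinJ : Module.Finite ℂ (PR n ⧸ J) := by
    refine Module.Finite.of_surjective ((Ideal.Quotient.factorₐ ℂ hIJ).toLinearMap) ?_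
    intro y
    obtain ⟨r, rfl⟩ := Ideal.Quotient.mk_surjective y
    exact ⟨Ideal.Quotient.mk I r, rfl⟩
  -- powers of the maximal ideal
  have hart : IsArtinianRing (PR n ⧸ I) := IsArtinianRing.of_finite ℂ _
  obtain ⟨M, hM⟩ := IsLocalRing.exists_maximalIdeal_pow_le_of_isArtinianRing_quotient I
  rw [← mI_eq] at hM
  have hγm : ∀ r ∈ mI n ^ M, γ r ∈ mI n ^ M := by
    intro r hr
    have h1 : Ideal.map γ (mI n) ≤ mI n := by
      rw [Ideal.map_le_iff_le_comap, mI, Ideal.span_le]
      rintro _ ⟨i, rfl⟩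
      rw [SetLike.mem_coe, Ideal.mem_comap, hγX]
      apply comb_mem
      intro j
      exact Ideal.subset_span ⟨j, rfl⟩
    have h2 : γ r ∈ Ideal.map γ (mI n ^ M) := Ideal.mem_map_of_mem _ hr
    rw [Ideal.map_pow] at h2
    exact Ideal.pow_right_mono h1 M h2
  have hTγ : ∀ r, T (Ideal.Quotient.mk I r) = Ideal.Quotient.mk I (γ r) := by
    intro r
    refine hom_ext (T.comp (Ideal.Quotient.mkₐ ℂ I)) ((Ideal.Quotient.mkₐ ℂ I).comp γ) ?_ M ?_ ?_ r
    · intro i
      simp only [AlgHom.comp_apply, Ideal.Quotient.mkₐ_eq_mk]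
      rw [hT, hγX]
    · intro s hs'
      simp only [AlgHom.comp_apply, Ideal.Quotient.mkₐ_eq_mk]
      rw [Ideal.Quotient.eq_zero_iff_mem.mpr (hM hs'), map_zero]
    · intro s hs'
      simp only [AlgHom.comp_apply, Ideal.Quotient.mkₐ_eq_mk]
      exact Ideal.Quotient.eq_zero_iff_mem.mpr (hM (hγm s hs'))
  have hJγ : ∀ r, (LinearMap.id : (PR n ⧸ J) →ₗ[ℂ] (PR n ⧸ J)) (Ideal.Quotient.mk J r) =
      Ideal.Quotient.mk J (γ r) := by
    intro r
    refine hom_ext (Ideal.Quotient.mkₐ ℂ J) ((Ideal.Quotient.mkₐ ℂ J).comp γ) ?_ M ?_ ?_ r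
    · intro i
      simp only [AlgHom.comp_apply, Ideal.Quotient.mkₐ_eq_mk]
      symm
      rw [← sub_eq_zero, ← map_sub, Ideal.Quotient.eq_zero_iff_mem]
      have := hγY (MvPolynomial.X i)
      rw [MvPolynomial.coe_X] at this
      have hYJ : Y ≤ J := by
        rw [hJ]
        exact Ideal.span_mono Set.subset_union_right
      exact hYJ this
    · intro s hs'
      exact Ideal.Quotient.eq_zero_iff_mem.mpr (hIJ (hM hs'))
    · intro s hs'
      simp only [AlgHom.comp_apply, Ideal.Quotient.mkₐ_eq_mk]
      exact Ideal.Quotient.eq_zero_iff_mem.mpr (hIJ (hM (hγm s hs')))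
  -- regular sequences
  have e1 : ((List.finRange n).map EF).map Eig.u = (List.finRange n).map F := by
    rw [List.map_map]; rfl
  have e2 : (l0.map EF ++ l1.map EL).map Eig.u = l0.map F ++ l1.map L := by
    rw [List.map_append, List.map_map, List.map_map]; rfl
  have r1 : RegRev ((List.finRange n).map F) := by
    apply regRev_of_finite
    · simp
    · intro u hu
      obtain ⟨i, _, rfl⟩ := List.mem_map.mp hu
      exact hF0 i
    · rw [hIF]
      exact hfin
  have r2 : RegRev (l0.map F ++ l1.map L) := by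
    apply regRev_of_finite
    · rw [List.length_append, List.length_map, List.length_map]
      exact hlen
    · intro u hu
      rcases List.mem_append.mp hu with hu | hu
      · obtain ⟨i, _, rfl⟩ := List.mem_map.mp hu
        exact hF0 i
      · obtain ⟨i, _, rfl⟩ := List.mem_map.mp hu
        exact hL0 i
    · rw [hJF]
      exact hfinJ
  have hperm : (l1.map EL ++ (List.finRange n).map EF).Perm
      (l1.map EF ++ (l0.map EF ++ l1.map EL)) := by
    have h1 : ((List.finRange n).map EF).Perm (l1.map EF ++ l0.map EF) := by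
      rw [← List.map_append]
      exact (hperm0.map EF).symm
    refine (List.perm_append_comm).trans ?_
    rw [← List.append_assoc]
    exact h1.append_right _
  have key := comparison' (l1.map EL) ((List.finRange n).map EF) (l1.map EF)
    (l0.map EF ++ l1.map EL) hperm (by rw [e1]; exact r1) (by rw [e2]; exact r2) I J
    (by rw [e1]; exact hIF) (by rw [e2]; exact hJF) hfin hfinJ T.toLinearMap hTγ LinearMap.id hJγ
  rw [List.map_map, List.map_map, LinearMap.trace_id] at key
  have hne : (l1.map (fun i => 1 - ζ i)).prod ≠ 0 := by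
    apply List.prod_ne_zero
    intro h
    obtain ⟨i, hi, h⟩ := List.mem_map.mp h
    exact (hl1 i).mp hi (sub_eq_zero.mp h).symm
  exact mul_left_cancel₀ hne key

end Pool.Agent.Q171.KT
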